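import Pool.Agent.E8helper73.Sch.Reals
import Pool.Agent.Helper292.ForceCH

/-!
# MP_42532c_gt: productively Scheepers versus productively Menger sets of reals

It is consistent that some set of reals is productively Scheepers but not productively Menger:
this is proved from the continuum hypothesis, and the continuum hypothesis can be forced.
-/

namespace Pool.Agent.Results.MP_42532c_gt.ScheepersNotMengerH73

open Set Cardinal

universe u v

/-- The Menger property: for every sequence of open covers `U n` there are finite `F n ⊆ U n` such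
that all the members of all the `F n` cover the space. -/
def Menger (Z : Type u) [TopologicalSpace Z] : Prop :=
  ∀ U : ℕ → Set (Set Z), (∀ n, (∀ u ∈ U n, IsOpen u) ∧ ⋃₀ U n = Set.univ) →
    ∃ F : ℕ → Set (Set Z), (∀ n, F n ⊆ U n ∧ (F n).Finite) ∧ (⋃ n, ⋃₀ F n) = Set.univ

/-- The Scheepers property: for every sequence of open covers `U n` there are finite `F n ⊆ U n`
such that every finite subset of the space is contained in the union of `F n` for some `n`. -/
def Scheepers (Z : Type u) [TopologicalSpace Z] : Prop :=
  ∀ U : ℕ → Set (Set Z), (∀ n, (∀ u ∈ U n, IsOpen u) ∧ ⋃₀ U n = Set.univ) →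
    ∃ F : ℕ → Set (Set Z), (∀ n, F n ⊆ U n ∧ (F n).Finite) ∧
      ∀ E : Set Z, E.Finite → ∃ n, E ⊆ ⋃₀ F n

/-- The set of reals `X` is productively Scheepers in the class of sets of reals. -/
def ProductivelyScheepers (X : Set ℝ) : Prop := ∀ Y : Set ℝ, Scheepers Y → Scheepers (X × Y)

/-- The set of reals `X` is productively Menger in the class of sets of reals. -/
def ProductivelyMenger (X : Set ℝ) : Prop := ∀ Y : Set ℝ, Menger Y → Menger (X × Y)

/-- (A) Some notion of forcing `P` forces, below every condition, that `ω₁` is preserved and that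
the continuum hypothesis holds.  (B) Under the continuum hypothesis there is a set of reals which
is productively Scheepers but not productively Menger; moreover its product with every Scheepers
topological space is Scheepers. -/
theorem result :
    (∃ (P : Type) (_ : Preorder P), Nonempty P ∧ ∀ p : P,
      p ∈ Pool.Agent.Helper292.ForceCH.OmegaOnePreserved P ∧
      p ∈ Pool.Agent.Helper292.ForceCH.CHHolds P) ∧
    ((ℵ₁ : Cardinal.{0}) = 𝔠 →
      ∃ X : Set ℝ, ProductivelyScheepers X ∧ ¬ ProductivelyMenger X ∧
        ∀ (Y : Type v) [TopologicalSpace Y], Scheepers Y → Scheepers (X × Y)) := by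
  constructor
  · obtain ⟨P, i, h1, h2⟩ := Pool.Agent.Helper292.ForceCH.exists_forcing
    exact ⟨P, i, h1, fun p => ⟨(h2 p).1, (h2 p).2.2⟩⟩
  · intro CH
    obtain ⟨X, M, h1, h2, h3⟩ := Pool.Agent.E8helper73.Sch.exists_reals.{v} CH
    refine ⟨X, ?_, fun h => h3 (h M h2), h1⟩
    intro Y hY
    have h4 : Pool.Agent.E8helper73.Sch.ScheepersSp (ULift.{v} Y) :=
      Pool.Agent.E8helper73.Sch.ScheepersSp.of_surjective hY Homeomorph.ulift.symm
        Homeomorph.ulift.symm.continuous Homeomorph.ulift.symm.surjective
    exact (h1 (ULift.{v} Y) h4).of_surjective ((Homeomorph.refl X).prodCongr Homeomorph.ulift)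
      ((Homeomorph.refl X).prodCongr Homeomorph.ulift).continuous
      ((Homeomorph.refl X).prodCongr Homeomorph.ulift).surjective

end Pool.Agent.Results.MP_42532c_gt.ScheepersNotMengerH73
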